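import Pool.Agent.U536.DS.F
import Pool.Agent.Results.MP_7475bd_nt.MultiplicativeValues

/-!
# The `n`-term abc inequality over `ℚ` for all points whose radicals are near an integral combination of two divisors of a
value of a multiplicative function

Let `f` be a positive multiplicative function of at most polynomial growth such that `f p ≤ M p` for the large primes `p`,
with different values at different large primes; for example Euler's function or the sum of the divisors. Let `G` have steps
bounded below by a positive constant and growth at most `v^d`, for example `α v^d`. Let `b < 1` and `0 ≤ c < 2 b - 1`. For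
all `m ≤ N` but `N exp (-(log N)^c)`, for EVERY integer `w ≥ exp ((log N)^b)` of the form `w = u s + v t` with divisors `s`,
`t` of `f(m)` and integers `|u|, |v| ≤ exp ((log N)^θ)`, ALL points `z` over `ℚ` of the hyperplane `z_1 + ⋯ + z_n = 0` with
nonzero coordinates, of height at most the `A`-th power of the product `R(z)` of the radicals of the coordinates, and with
`|R(z) - G w| ≤ w ^ κ`, satisfy `h(z) < M rad(z) + C`, if `n ≥ 3`, `A > 1 / n`, `M > 1 / n`, `C` real, `κ ≥ 0` and `d ((n -
1) / n - ν) + κ < 1`, `θ < b` (`ν > 0` depends only on `n`, `A`, `M`, `C`). The integers `w` include all large divisors of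
`f(m)` and the large sums and differences of ANY two divisors of `f(m)`; for Euler's function, those of the orders of any
two units modulo `m`.

Proof. Write `m = k u` with `u` squarefree and composed of primes larger than `N^(1/J)`, `J = (log N)^a`, and `k ≤ exp (4
(log N)^a)`; this is possible for all `m ≤ N` but very few. If `v ∣ f(k) f(u)`, then `v = g v'` with `g ∣ f(k)` and `v' ∣ ∏
f(p)`, and the number of such `u ≤ N / k` is at most `N / (k v')` times `(log N)^O(J)` times the number `τ_J(v')` of the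
ordered factorizations of `v'` into `J` factors. Take for `v` the least common multiple of `s` and `t`: the sum of `1 / [s,
t]` over the pairs `s, t ≤ X` with `u s + v t = w` is at most `4 U (1 + log X) τ(w) / w` if `|u|, |v| ≤ U`; the inequality
`τ_J^q ≤ τ_K` for `K ≥ J^q` and Hölder's inequality bound the sum over the pairs with exceptional `w`. The integers of the
hand-in `CommonFactors` of this page have a large common factor with `f(m)`; the sums and differences of two divisors of
`f(m)` have in general none. The file `MultiplicativeValues` of the starting library treats the integers `w = f(m)` only,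
with `N / (log N)^U` exceptions.
-/

set_option autoImplicit false

namespace Pool.Agent.Results.MP_7475bd_nt.DivisorSums

open Finset
open Pool.Agent.N733.TG (LM Expanding lm_totient lm_sigma expanding_pow)
open Pool.Agent.U536.DS (Comb comb_windows_unif comb_pm comb_orders)
open Pool.Agent.Results.MP_7475bd_nt.MultiplicativeValues (h rad prodRad Point log_prodRad prodRad_pos)

/-- **The `n`-term abc inequality over `ℚ` for all points whose radicals are near an integral combination of two divisors of a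
value of a multiplicative function.** Let `f` be multiplicative and positive, of at most polynomial growth, with `f p ≤ M p`
at the large primes, and injective there. Let `G` have steps `≥ a > 0` and growth at most `v^d`. Let `b < 1` and `0 ≤ c < 2
b - 1`, `n ≥ 3`, `A > 1 / n`, `M > 1 / n`, `C` real, `κ ≥ 0` and `d ((n - 1) / n - ν) + κ < 1`, `θ < b` (`ν > 0` depends
only on `n`, `A`, `M`, `C`). For all large `N`, for all `m ≤ N` but `N exp (-(log N)^c)`, for EVERY integer `w ≥ exp ((log
N)^b)` of the form `w = u s + v t` with divisors `s`, `t` of `f(m)` and integers `|u|, |v| ≤ exp ((log N)^θ)`, ALL points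
`z` over `ℚ` of the hyperplane `z_1 + ⋯ + z_n = 0` with nonzero coordinates, of height at most the `A`-th power of the
product `R(z)` of the radicals of the coordinates, and with `|R(z) - G w| ≤ w ^ κ`, satisfy `h(z) < M rad(z) + C`. All the
sums and differences `≥ exp ((log N)^b)` of two divisors of `f(m)` are such integers `w`, and for Euler's function those of
the orders of two units modulo `m`. Euler's function and the sum of the divisors are examples of `f`, and `α v^d` with `α >
0`, `d ≥ 1` is an example of `G`. -/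
theorem result :
    (∀ n : ℕ, 3 ≤ n → ∀ A M C : ℝ, (1 : ℝ) / n < A → (1 : ℝ) / n < M → ∃ ν : ℝ, 0 < ν ∧
      ∀ f : ℕ → ℕ, LM f → ∀ (G : ℕ → ℝ) (d : ℝ), Expanding G d → ∀ κ θ b c : ℝ, 0 ≤ κ →
      d * (((n : ℝ) - 1) / n - ν) + κ < 1 → θ < b → b < 1 → 0 ≤ c → c < 2 * b - 1 → ∃ N₀ : ℕ, ∀ N : ℕ, N₀ ≤ N →
        ({m : ℕ | 1 ≤ m ∧ m ≤ N ∧ ¬ ∀ w : ℕ, Comb f b θ N m w → ∀ z : Fin n → ℤ, Point A z →
          |(prodRad z : ℝ) - G w| ≤ (w : ℝ) ^ κ → h z < M * rad z + C}.ncard : ℝ) ≤ N * Real.exp (-(Real.log N ^ c))) ∧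
    (LM Nat.totient ∧ LM (fun m => ∑ d ∈ m.divisors, d)) ∧
    (∀ α d : ℝ, 0 < α → 1 ≤ d → Expanding (fun v => α * (v : ℝ) ^ d) d) ∧
    (∀ (f : ℕ → ℕ) (b θ : ℝ) (N m s t : ℕ), s ∣ f m → t ∣ f m →
      (Real.exp (Real.log N ^ b) ≤ ((s + t : ℕ) : ℝ) → Comb f b θ N m (s + t)) ∧
      (Real.exp (Real.log N ^ b) ≤ ((s - t : ℕ) : ℝ) → Comb f b θ N m (s - t)) ∧
      (Real.exp (Real.log N ^ b) ≤ (s : ℝ) → Comb f b θ N m s)) ∧
    ∀ (b θ : ℝ) (N m : ℕ) (x y : (ZMod m)ˣ),
      (Real.exp (Real.log N ^ b) ≤ ((orderOf x + orderOf y : ℕ) : ℝ) → Comb Nat.totient b θ N m (orderOf x + orderOf y)) ∧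
      (Real.exp (Real.log N ^ b) ≤ ((orderOf x - orderOf y : ℕ) : ℝ) → Comb Nat.totient b θ N m (orderOf x - orderOf y)) := by
  refine ⟨?_, ⟨lm_totient, lm_sigma⟩, fun α d hα hd => expanding_pow hα hd, fun f b θ N m s t hs ht => comb_pm hs ht,
    fun b θ N m x y => comb_orders x y⟩
  intro n hn A M C hA hM
  have hn' : (3 : ℝ) ≤ n := by exact_mod_cast hn
  have hn0 : (0 : ℝ) < 1 / n := by positivity
  have hA0 : 0 < A := hn0.trans hA
  obtain ⟨h1, -, h2, -⟩ := ExceptionsOffClosedSubsets.result n hn A hA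
  obtain ⟨ν, hν, C', hC⟩ := h2 M hM C
  have hg : 0 < ((n : ℝ) - 1) / n := div_pos (by linarith) (by linarith)
  obtain ⟨ν', hν'⟩ : ∃ ν', ν' = min ν (((n : ℝ) - 1) / n) := ⟨_, rfl⟩
  have hν'0 : 0 < ν' := by rw [hν']; exact lt_min hν hg
  have hν'1 : ν' ≤ ν := by rw [hν']; exact min_le_left _ _
  have hν'2 : ν' ≤ ((n : ℝ) - 1) / n := by rw [hν']; exact min_le_right _ _
  refine ⟨ν', hν'0, fun f hf G d hG κ θ b c hκ h3 hθ hb hc hcb => ?_⟩
  obtain ⟨N₀, hN₀⟩ := comb_windows_unif (fun z : Fin n → ℤ => ((prodRad z : ℕ) : ℝ)) hf hG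
    (s := ((n : ℝ) - 1) / n - ν') (by linarith) hκ h3 hθ hb hc hcb |C'|
  refine ⟨N₀, fun N hN => ?_⟩
  have h4 := hN₀ {z : Fin n → ℤ | Point A z ∧ ¬ h z < M * rad z + C} (fun X hX => ?_) N hN
  · refine le_trans (le_of_eq ?_) h4
    congr 2
    ext m
    simp only [Set.mem_ofPred_eq]
    push Not
    constructor
    · rintro ⟨a1, a2, w, hw, z, a3, a4, a5⟩
      exact ⟨a1, a2, w, hw, z, ⟨a3, a5⟩, a4⟩
    · rintro ⟨a1, a2, w, hw, z, ⟨a3, a5⟩, a4⟩
      exact ⟨a1, a2, w, hw, z, a3, a4, a5⟩
  · have hsub : {z : Fin n → ℤ | z ∈ {z : Fin n → ℤ | Point A z ∧ ¬ h z < M * rad z + C} ∧ ((prodRad z : ℕ) : ℝ) ≤ X} ⊆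
        ExceptionsOffClosedSubsets.Exceptions n A M C X := by
      rintro z ⟨⟨⟨g1, g2, g3, g4⟩, g5⟩, g6⟩
      have h5 : Real.log (prodRad z) ≤ Real.log X :=
        Real.log_le_log (by exact_mod_cast prodRad_pos z) g6
      refine ⟨⟨g1, g2, g3, ?_, ?_⟩, ?_⟩
      · exact g4.trans (mul_le_mul_of_nonneg_left h5 hA0.le)
      · rw [← log_prodRad]
        exact h5
      · exact not_lt.1 g5
    have hfin : (ExceptionsOffClosedSubsets.Exceptions n A M C X).Finite := (h1 X).subset fun z hz => hz.1
    refine ⟨hfin.subset hsub, ?_⟩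
    have h5 : ((ExceptionsOffClosedSubsets.Exceptions n A M C X).ncard : ℝ) ≤ |C'| * X ^ (((n : ℝ) - 1) / n - ν') := by
      refine (hC X hX).trans ?_
      have e1 : X ^ (((n : ℝ) - 1) / n - ν) ≤ X ^ (((n : ℝ) - 1) / n - ν') :=
        Real.rpow_le_rpow_of_exponent_le hX (by linarith)
      have e2 : 0 < X ^ (((n : ℝ) - 1) / n - ν) := by positivity
      calc C' * X ^ (((n : ℝ) - 1) / n - ν) ≤ |C'| * X ^ (((n : ℝ) - 1) / n - ν) :=
            mul_le_mul_of_nonneg_right (le_abs_self C') e2.le
        _ ≤ _ := mul_le_mul_of_nonneg_left e1 (abs_nonneg C')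
    refine le_trans ?_ h5
    exact_mod_cast Set.ncard_le_ncard hsub hfin

end Pool.Agent.Results.MP_7475bd_nt.DivisorSums
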