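import Pool.Agent.U449.BV.F
import Pool.Agent.Results.MP_7475bd_nt.ExceptionsOffClosedSubsets

/-!
# The `n`-term abc inequality over `ℚ` for all points with radicals near residues of polynomials on arbitrary sets

Let `n ≥ 3`, `A > 1 / n`, `M > 1 / n` (for example `M = 1 + ε`) and `c` real. There is `ν > 0` such that the following holds for
`κ ≥ 0`, `(n - 1) / n - ν + κ < δ ≤ 1`. Let `p` be a large prime, `f(x, y)` ANY polynomial of degree at most `d` over the field of
`p` elements with a monomial which contains both variables (for example `f = x y`), let `𝒜`, `ℬ` be ARBITRARY sets of at least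
`p ^ δ` residues, and `g`, `h` ARBITRARY functions from the residues to the residues. For all the pairs `(a, b)` in `𝒜 × ℬ`, apart
from a proportion of at most `p ^ (-ρ)`, ALL points `z` over `ℚ` of the hyperplane `z_1 + ⋯ + z_n = 0` with nonzero coordinates, of
height at most the `A`-th power of the product `R(z)` of the radicals of the coordinates, for which `R(z)` is at a distance of
at most `p ^ κ` from the least residue of `f(a, b) + g(a) + h(b)`, satisfy `h(z) < M rad(z) + c`. There are
`X ^ ((n - 1) / n + o(1))` points with `R(z) ≤ X`, so that the windows with `(n - 1) / n + κ > 1` contain many points. More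
generally, this holds for the values `F(a, b)` of all functions of two variables with few coincidences (`Rare`), on arbitrary
finite sets.

Since the sets and the functions `g` and `h` are arbitrary, the values have no arithmetic structure, and a value may be taken
by very many pairs. So the number of the exceptions (starting library) does not give the result directly. Proof: the
inequality of Cauchy and Schwarz; for most pairs `a, a'` the difference `F(a, b) - F(a', b)` is small for few `b`
(`Pool.Agent.U449.BV`).
-/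

set_option autoImplicit false

namespace Pool.Agent.Results.MP_7475bd_nt.MixedPolynomials

open Finset
open Pool.Agent.U449.BV (Rare OnProducts on_products residues)

/-- `h(P) = log max |z_i|` for a point `P` with coprime integer coordinates `z` -/
noncomputable def h {n : ℕ} (z : Fin n → ℤ) : ℝ :=
  Real.log ((univ.sup fun j => (z j).natAbs : ℕ) : ℝ)

open scoped Classical in
/-- `rad(P)`: the sum of `log p` over the primes `p` for which the `ord_p (z_i)` are not all
equal (for nonzero integers `z_i` such a prime divides one of them) -/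
noncomputable def rad {n : ℕ} (z : Fin n → ℤ) : ℝ :=
  ∑ p ∈ (∏ i, z i).natAbs.primeFactors.filter
    (fun p => ∃ i j, padicValInt p (z i) ≠ padicValInt p (z j)), Real.log p

/-- the product of the radicals of the coordinates -/
def prodRad {n : ℕ} (z : Fin n → ℤ) : ℕ := ∏ i, ∏ p ∈ (z i).natAbs.primeFactors, p

/-- the points over `ℚ` of the hyperplane `z_1 + ... + z_n = 0` with nonzero coordinates (every point is given by its two
vectors of coprime integer coordinates), of height at most the `A`-th power of the product of the radicals of the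
coordinates -/
def Point {n : ℕ} (A : ℝ) (z : Fin n → ℤ) : Prop :=
  univ.gcd z = 1 ∧ ∑ i, z i = 0 ∧ (∀ i, z i ≠ 0) ∧ h z ≤ A * Real.log (prodRad z)

lemma log_prodRad {n : ℕ} (z : Fin n → ℤ) :
    Real.log (prodRad z) = ∑ i, ExceptionsOffClosedSubsets.logRad (z i) := by
  unfold prodRad ExceptionsOffClosedSubsets.logRad
  rw [Nat.cast_prod, Real.log_prod]
  · refine Finset.sum_congr rfl fun i _ => ?_
    rw [Nat.cast_prod, Real.log_prod]
    intro p hp
    exact_mod_cast (Nat.prime_of_mem_primeFactors hp).pos.ne'
  · intro i _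
    have : 0 < ∏ p ∈ (z i).natAbs.primeFactors, p :=
      Finset.prod_pos fun p hp => (Nat.prime_of_mem_primeFactors hp).pos
    exact_mod_cast this.ne'

lemma prodRad_pos {n : ℕ} (z : Fin n → ℤ) : 0 < prodRad z :=
  Finset.prod_pos fun _ _ => Finset.prod_pos fun _ hp => (Nat.prime_of_mem_primeFactors hp).pos

/-- ALL points `z` (`Point`) with `|R(z) - v| ≤ W`, `R(z)` the product of the radicals of the coordinates, satisfy
`h(z) < M rad(z) + c`. -/
def Near (n : ℕ) (A M c : ℝ) (W v : ℝ) : Prop :=
  ∀ z : Fin n → ℤ, Point A z → |((prodRad z : ℕ) : ℝ) - v| ≤ W → h z < M * rad z + c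

/-- **Theorem.** Let `n ≥ 3`, `A > 1 / n`, `M > 1 / n` and `c` real. There is `ν > 0` such that for all `κ ≥ 0` the property `Near`,
with windows of length `X ^ κ`, holds for almost all values of functions of two variables with few coincidences, on arbitrary
finite sets of at least `X ^ δ` elements, `(n - 1) / n - ν + κ < δ ≤ 1` (`OnProducts`).
The least residues modulo a prime `p` of `f(a, b) + g(a) + h(b)` are such a function, with `X = p`, for all polynomials `f`
modulo `p` with a monomial which contains both variables, arbitrary functions `g` and `h`, and arbitrary sets of residues. -/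
theorem result :
    (∀ n : ℕ, 3 ≤ n → ∀ A M c : ℝ, (1 : ℝ) / n < A → (1 : ℝ) / n < M → ∃ ν : ℝ, 0 < ν ∧
      ∀ κ : ℝ, 0 ≤ κ → OnProducts (((n : ℝ) - 1) / n - ν + κ) κ (Near n A M c)) ∧
    ∀ (p : ℕ) [Fact p.Prime] (d : ℕ) (f : MvPolynomial (Fin 2) (ZMod p)), f.totalDegree ≤ d →
      (∃ m ∈ f.support, m 0 ≠ 0 ∧ m 1 ≠ 0) → ∀ (g h : ZMod p → ZMod p) (A B : Finset (ZMod p)),
        Rare d A B (fun a b => (((MvPolynomial.eval ![a, b] f + g a + h b).val : ℕ) : ℝ)) := by
  refine ⟨fun n hn A M c hA hM => ?_, residues⟩
  have hn' : (3 : ℝ) ≤ n := by exact_mod_cast hn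
  have hn0 : (0 : ℝ) < 1 / n := by positivity
  have hA0 : 0 < A := hn0.trans hA
  obtain ⟨h1, -, h2, -⟩ := ExceptionsOffClosedSubsets.result n hn A hA
  obtain ⟨ν, hν, C, hC⟩ := h2 M hM c
  have hg : 0 < ((n : ℝ) - 1) / n := div_pos (by linarith) (by linarith)
  obtain ⟨ν', hν'⟩ : ∃ ν', ν' = min ν (((n : ℝ) - 1) / n) := ⟨_, rfl⟩
  have hν'0 : 0 < ν' := by rw [hν']; exact lt_min hν hg
  have hν'1 : ν' ≤ ν := by rw [hν']; exact min_le_left _ _
  have hν'2 : ν' ≤ ((n : ℝ) - 1) / n := by rw [hν']; exact min_le_right _ _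
  refine ⟨ν', hν'0, fun κ hκ => ?_⟩
  refine on_products (fun z : Fin n → ℤ => Point A z) (fun z => h z < M * rad z + c)
    (fun z : Fin n → ℤ => ((prodRad z : ℕ) : ℝ)) (by linarith) hκ (fun ε hε => ⟨|C|, fun X hX => ?_⟩)
  have hsub : {z : Fin n → ℤ | (Point A z ∧ ¬ h z < M * rad z + c) ∧ ((prodRad z : ℕ) : ℝ) ≤ X} ⊆
      ExceptionsOffClosedSubsets.Exceptions n A M c X := by
    rintro z ⟨⟨⟨g1, g2, g3, g4⟩, g5⟩, g6⟩
    have h5 : Real.log (prodRad z) ≤ Real.log X :=
      Real.log_le_log (by exact_mod_cast prodRad_pos z) g6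
    refine ⟨⟨g1, g2, g3, ?_, ?_⟩, ?_⟩
    · exact g4.trans (mul_le_mul_of_nonneg_left h5 hA0.le)
    · rw [← log_prodRad]
      exact h5
    · exact not_lt.1 g5
  have hfin : (ExceptionsOffClosedSubsets.Exceptions n A M c X).Finite := (h1 X).subset fun z hz => hz.1
  refine ⟨hfin.subset hsub, ?_⟩
  have h5 : ((ExceptionsOffClosedSubsets.Exceptions n A M c X).ncard : ℝ) ≤
      |C| * X ^ (((n : ℝ) - 1) / n - ν' + ε) := by
    refine (hC X hX).trans ?_
    have e1 : X ^ (((n : ℝ) - 1) / n - ν) ≤ X ^ (((n : ℝ) - 1) / n - ν' + ε) :=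
      Real.rpow_le_rpow_of_exponent_le hX (by linarith)
    have e2 : 0 < X ^ (((n : ℝ) - 1) / n - ν) := by positivity
    calc C * X ^ (((n : ℝ) - 1) / n - ν) ≤ |C| * X ^ (((n : ℝ) - 1) / n - ν) :=
          mul_le_mul_of_nonneg_right (le_abs_self C) e2.le
      _ ≤ _ := mul_le_mul_of_nonneg_left e1 (abs_nonneg C)
  refine le_trans ?_ h5
  exact_mod_cast Set.ncard_le_ncard hsub hfin

end Pool.Agent.Results.MP_7475bd_nt.MixedPolynomials
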