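import Pool.Agent.U405.RS.F
import Pool.Agent.U405.RS.F2
import Pool.Agent.Results.MP_7475bd_nt.ExceptionsOffClosedSubsets

/-!
# The `n`-term abc inequality for all points with radicals near values of `f` at thin sets of arguments

Let `f` be a positive multiplicative function of at most polynomial growth which for each `a ≥ 1` is injective at the powers
`p ^ a` of the large primes and at most `M p ^ a` there; for example Euler's function or the sum of the divisors. Let `n ≥ 3`, `A > 1 / n`, `M > 1 / n`, `c` real, `α > 0`, `d ≥ 1`, `κ ≥ 0`. ALL points `z` of the hyperplane `z_1 + ⋯ + z_n = 0` of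
height at most the `A`-th power of `R(z)`, the product of the radicals of the coordinates, with `|R(z) - α f(v)^d| ≤ f(v)^κ`, satisfy
`h(z) < M rad(z) + c`, for almost all `v` (with a saving of any power of the logarithm) in each of these sets:

* the values of any integer polynomial without repeated roots, of degree `< 1 / e`;
* the shifted primes `p + a`, `a` any integer, if `e < 1`;
* the intervals `(x, x + y]`, `x^τ ≤ y ≤ x`, for every `τ > e`, `τ ≤ 1`.

Here `e = d (1 - M) + κ` for `M ≤ M₀`, where `M₀ > 1 / n` depends on `n` and `A`, and `e = d ((n - 1) / n - ν) + κ` with some `ν > 0`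
for any `M > 1 / n`. The inequality of the conjecture has `M > n - 2`; here every `M > 1 / n` is allowed.

Proof. Own tool `Pool.Agent.U405.RS`: let `S` be a set of at least `N^(θ + δ)` integers up to `N` with at most
`B g^ω(k) |S| / k` multiples of `k` for every `k ≤ N^δ`, and let `W` have at most `C X^θ` elements up to `X`. Then `f(m) ∈ W` for at
most `|S| / (log N)^U` of the `m` in `S`. For this write `m = k w` with `k` composed of the primes `≤ z = N^(1 / J)`, `J` a small
multiple of `log log N`. By Rankin's method with the weights `g^ω(k)` one has `k ≤ N^η` for most `m`; and `w` has at most `J`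
prime factors and exponents `≤ J`, so that `w` is determined by `f(w)` up to `(J τ(f(w)) + 1)^J = N^o(1)` possibilities. The three
kinds of sets satisfy the hypothesis: for polynomials because `P` has at most `g` zeros modulo every prime power (lifting of
zeros by the identity `U P + V P' = R`), for shifted primes by the Brun-Titchmarsh inequality (library). The exceptional
points are counted by the starting theorem `ExceptionsOffClosedSubsets` of this problem.
-/

set_option autoImplicit false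

namespace Pool.Agent.Results.MP_7475bd_nt.SparseArguments

open Finset
open Pool.Agent.N733.TG (Expanding expanding_pow)
open Pool.Agent.U405.RS (PM Sparse sparse_set' examples)

/-- `h(P) = log max |z_i|` for a point `P` with coprime integer coordinates `z` -/
noncomputable def h {n : ℕ} (z : Fin n → ℤ) : ℝ :=
  Real.log ((univ.sup fun j => (z j).natAbs : ℕ) : ℝ)

open scoped Classical in
/-- `rad(P)`: the sum of `log p` over the primes `p` for which the `ord_p (z_i)` are not all
equal (for nonzero integers `z_i` such a prime divides one of them) -/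
noncomputable def rad {n : ℕ} (z : Fin n → ℤ) : ℝ :=
  ∑ p ∈ (∏ i, z i).natAbs.primeFactors.filter
    (fun p => ∃ i j, padicValInt p (z i) ≠ padicValInt p (z j)), Real.log p

/-- the product of the radicals of the coordinates -/
def prodRad {n : ℕ} (z : Fin n → ℤ) : ℕ := ∏ i, ∏ p ∈ (z i).natAbs.primeFactors, p

/-- the points over `ℚ` of the hyperplane `z_1 + ... + z_n = 0` with nonzero coordinates (every point is given by its two
vectors of coprime integer coordinates), of height at most the `A`-th power of the product of the radicals of the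
coordinates -/
def Point {n : ℕ} (A : ℝ) (z : Fin n → ℤ) : Prop :=
  univ.gcd z = 1 ∧ ∑ i, z i = 0 ∧ (∀ i, z i ≠ 0) ∧ h z ≤ A * Real.log (prodRad z)

lemma log_prodRad {n : ℕ} (z : Fin n → ℤ) :
    Real.log (prodRad z) = ∑ i, ExceptionsOffClosedSubsets.logRad (z i) := by
  unfold prodRad ExceptionsOffClosedSubsets.logRad
  rw [Nat.cast_prod, Real.log_prod]
  · refine Finset.sum_congr rfl fun i _ => ?_
    rw [Nat.cast_prod, Real.log_prod]
    intro p hp
    exact_mod_cast (Nat.prime_of_mem_primeFactors hp).pos.ne'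
  · intro i _
    have : 0 < ∏ p ∈ (z i).natAbs.primeFactors, p :=
      Finset.prod_pos fun p hp => (Nat.prime_of_mem_primeFactors hp).pos
    exact_mod_cast this.ne'

lemma prodRad_pos {n : ℕ} (z : Fin n → ℤ) : 0 < prodRad z :=
  Finset.prod_pos fun _ _ => Finset.prod_pos fun _ hp => (Nat.prime_of_mem_primeFactors hp).pos

/-- all points (`Point`) with `|R(z) - G v| ≤ v ^ κ`, `R(z)` the product of the radicals of the coordinates, satisfy
`h(z) < M rad(z) + c` -/
def Clear (n : ℕ) (A M c : ℝ) (G : ℕ → ℝ) (κ : ℝ) (v : ℕ) : Prop :=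
  ∀ z : Fin n → ℤ, Point A z → |(prodRad z : ℝ) - G v| ≤ (v : ℝ) ^ κ → h z < M * rad z + c

theorem exceptions_mono {n : ℕ} {A M c X Y : ℝ} (hA : 0 ≤ A) (hX : 0 < X) (hXY : X ≤ Y) :
    ExceptionsOffClosedSubsets.Exceptions n A M c X ⊆ ExceptionsOffClosedSubsets.Exceptions n A M c Y := by
  rintro z ⟨⟨h1, h2, h3, h4, h5⟩, h6⟩
  have h7 : Real.log X ≤ Real.log Y := Real.log_le_log hX hXY
  exact ⟨⟨h1, h2, h3, h4.trans (mul_le_mul_of_nonneg_left h7 hA), h5.trans h7⟩, h6⟩

theorem sub_exceptions {n : ℕ} {A M c X : ℝ} (hA0 : 0 ≤ A) :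
    {z : Fin n → ℤ | z ∈ {z : Fin n → ℤ | Point A z ∧ ¬ h z < M * rad z + c} ∧ ((prodRad z : ℕ) : ℝ) ≤ X} ⊆
        ExceptionsOffClosedSubsets.Exceptions n A M c X := by
  rintro z ⟨⟨⟨g1, g2, g3, g4⟩, g5⟩, g6⟩
  have h5 : Real.log (prodRad z) ≤ Real.log X :=
    Real.log_le_log (by exact_mod_cast prodRad_pos z) g6
  refine ⟨⟨g1, g2, g3, ?_, ?_⟩, ?_⟩
  · exact g4.trans (mul_le_mul_of_nonneg_left h5 hA0)
  · rw [← log_prodRad]
    exact h5
  · exact not_lt.1 g5

/-- **The `n`-term abc inequality near `G (f v)` for the `v` in thin sets.** Let `n ≥ 3` and `A > 1 / n`. There is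
`1 / n < M₀ ≤ 1` such that for all `f` in the class `PM`, all `G` with steps `≥ const > 0` and growth at most `v^d`, all `κ ≥ 0`,
`c` and `U`: (1) for `1 / n < M ≤ M₀` the property that ALL points `z` (`Point`) with `|R(z) - G v| ≤ v^κ`, `R(z)` the product of the
radicals of the coordinates, satisfy `h(z) < M rad(z) + c` holds in the sense `Sparse e f`, `e = d (1 - M) + κ`; (2) for each
`M > 1 / n` it holds with `e = d max ((n - 1) / n - ν) 0 + κ`, where `ν > 0` depends on `n`, `A`, `M` and `c` only. (`Sparse e f`: with a saving of `(log x)^U` it holds at `f v` for almost all `v` among the positive values of every integer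
polynomial without repeated roots of degree `< 1 / e`; among the shifted primes `p + a` for every `a`, if `e < 1`; and in all
intervals `(x, x + y]`, `x^τ ≤ y ≤ x`, `e < τ ≤ 1`.) Euler's function and the sum of the divisors are in the class `PM`, and
`α v^d` with `α > 0`, `d ≥ 1` is an example of `G`. -/
theorem result :
    (∀ n : ℕ, 3 ≤ n → ∀ A : ℝ, (1 : ℝ) / n < A →
      (∃ M₀ : ℝ, (1 : ℝ) / n < M₀ ∧ M₀ ≤ 1 ∧ ∀ M : ℝ, (1 : ℝ) / n < M → M ≤ M₀ →
        ∀ f : ℕ → ℕ, PM f → ∀ (G : ℕ → ℝ) (d κ : ℝ), Expanding G d → 0 ≤ κ → ∀ (c : ℝ) (U : ℕ),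
        Sparse (d * (1 - M) + κ) f (Clear n A M c G κ) U) ∧
      ∀ M c : ℝ, (1 : ℝ) / n < M → ∃ ν : ℝ, 0 < ν ∧
        ∀ f : ℕ → ℕ, PM f → ∀ (G : ℕ → ℝ) (d κ : ℝ), Expanding G d → 0 ≤ κ → ∀ U : ℕ,
        Sparse (d * max (((n : ℝ) - 1) / n - ν) 0 + κ) f (Clear n A M c G κ) U) ∧
    (PM Nat.totient ∧ PM (fun m => ∑ d ∈ m.divisors, d) ∧ PM (fun m => m)) ∧
    ∀ α d : ℝ, 0 < α → 1 ≤ d → Expanding (fun v => α * (v : ℝ) ^ d) d := by
  refine ⟨fun n hn A hA => ?_, examples, fun α d hα hd => expanding_pow hα hd⟩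
  have hn' : (3 : ℝ) ≤ n := by exact_mod_cast hn
  have hn0 : (0 : ℝ) < 1 / n := by positivity
  have hn1 : (1 : ℝ) / n < 1 := by
    rw [div_lt_one (by linarith)]
    linarith
  have hA0 : 0 < A := hn0.trans hA
  obtain ⟨h1, -, h2, M₀, hM₀, h3⟩ := ExceptionsOffClosedSubsets.result n hn A hA
  have hfin : ∀ M c X : ℝ, (ExceptionsOffClosedSubsets.Exceptions n A M c X).Finite :=
    fun M c X => (h1 X).subset fun z hz => hz.1
  refine ⟨⟨min M₀ 1, lt_min hM₀ hn1, min_le_right _ _, fun M hM hM1 f hf G d κ hG hκ c U => ?_⟩,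
    fun M c hM => ?_⟩
  · have hMM : M ≤ M₀ := hM1.trans (min_le_left _ _)
    have hM1' : M ≤ 1 := hM1.trans (min_le_right _ _)
    refine sparse_set' {z : Fin n → ℤ | Point A z ∧ ¬ h z < M * rad z + c} (fun z : Fin n → ℤ => ((prodRad z : ℕ) : ℝ)) hf hG
      (s := 1 - M) (κ := κ) (by linarith) hκ rfl (fun ε hε => ?_) _ U
      (fun v hv z hz hw => by
        by_contra hcon
        exact hv z ⟨hz, hcon⟩ hw)
    obtain ⟨X₀, hX₀⟩ := (h3 c ε hε).1
    obtain ⟨Y, hY⟩ : ∃ Y : ℝ, Y = max X₀ 1 := ⟨_, rfl⟩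
    refine ⟨max 1 ((ExceptionsOffClosedSubsets.Exceptions n A M c Y).ncard : ℝ), fun X hX => ?_⟩
    have hX0 : 0 < X := by linarith
    refine ⟨(hfin M c X).subset (sub_exceptions hA0.le), ?_⟩
    have h5 : (({z : Fin n → ℤ | z ∈ {z : Fin n → ℤ | Point A z ∧ ¬ h z < M * rad z + c} ∧
        ((prodRad z : ℕ) : ℝ) ≤ X}.ncard : ℕ) : ℝ) ≤ ((ExceptionsOffClosedSubsets.Exceptions n A M c X).ncard : ℝ) := by
      exact_mod_cast Set.ncard_le_ncard (sub_exceptions hA0.le) (hfin M c X)
    have hP : 1 ≤ X ^ (1 - M + ε) := Real.one_le_rpow hX (by linarith)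
    refine h5.trans ?_
    rcases le_total Y X with h6 | h6
    · have h7 := hX₀ X ((by rw [hY]; exact le_max_left _ _ : X₀ ≤ Y).trans h6) M hM.le hMM
      calc ((ExceptionsOffClosedSubsets.Exceptions n A M c X).ncard : ℝ) ≤ X ^ (1 - M + ε) := h7
        _ = 1 * X ^ (1 - M + ε) := (one_mul _).symm
        _ ≤ _ := mul_le_mul_of_nonneg_right (le_max_left _ _) (by linarith)
    · have h7 : ((ExceptionsOffClosedSubsets.Exceptions n A M c X).ncard : ℝ) ≤
          ((ExceptionsOffClosedSubsets.Exceptions n A M c Y).ncard : ℝ) := by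
        exact_mod_cast Set.ncard_le_ncard (exceptions_mono hA0.le hX0 h6) (hfin M c Y)
      have h8 : (0 : ℝ) ≤ max 1 ((ExceptionsOffClosedSubsets.Exceptions n A M c Y).ncard : ℝ) :=
        le_trans zero_le_one (le_max_left _ _)
      calc ((ExceptionsOffClosedSubsets.Exceptions n A M c X).ncard : ℝ)
          ≤ max 1 ((ExceptionsOffClosedSubsets.Exceptions n A M c Y).ncard : ℝ) * 1 := by
            rw [mul_one]
            exact h7.trans (le_max_right _ _)
        _ ≤ _ := mul_le_mul_of_nonneg_left hP h8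
  · obtain ⟨ν, hν, C, hC⟩ := h2 M hM c
    refine ⟨ν, hν, fun f hf G d κ hG hκ U => ?_⟩
    refine sparse_set' {z : Fin n → ℤ | Point A z ∧ ¬ h z < M * rad z + c} (fun z : Fin n → ℤ => ((prodRad z : ℕ) : ℝ)) hf hG
      (s := max (((n : ℝ) - 1) / n - ν) 0) (κ := κ) (le_max_right _ _) hκ rfl (fun ε hε => ⟨|C|, fun X hX => ?_⟩) _ U
      (fun v hv z hz hw => by
        by_contra hcon
        exact hv z ⟨hz, hcon⟩ hw)
    refine ⟨(hfin M c X).subset (sub_exceptions hA0.le), ?_⟩
    have h5 : (({z : Fin n → ℤ | z ∈ {z : Fin n → ℤ | Point A z ∧ ¬ h z < M * rad z + c} ∧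
        ((prodRad z : ℕ) : ℝ) ≤ X}.ncard : ℕ) : ℝ) ≤ ((ExceptionsOffClosedSubsets.Exceptions n A M c X).ncard : ℝ) := by
      exact_mod_cast Set.ncard_le_ncard (sub_exceptions hA0.le) (hfin M c X)
    refine h5.trans ((hC X hX).trans ?_)
    have e1 : X ^ (((n : ℝ) - 1) / n - ν) ≤ X ^ (max (((n : ℝ) - 1) / n - ν) 0 + ε) :=
      Real.rpow_le_rpow_of_exponent_le hX (by linarith [le_max_left (((n : ℝ) - 1) / n - ν) 0])
    have e2 : 0 < X ^ (((n : ℝ) - 1) / n - ν) := by positivity
    calc C * X ^ (((n : ℝ) - 1) / n - ν) ≤ |C| * X ^ (((n : ℝ) - 1) / n - ν) :=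
          mul_le_mul_of_nonneg_right (le_abs_self C) e2.le
      _ ≤ _ := mul_le_mul_of_nonneg_left e1 (abs_nonneg C)

end Pool.Agent.Results.MP_7475bd_nt.SparseArguments
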